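import Pool.Agent.IRR46.Assembly

/-!
# MP_46a474_nt: for which total degrees does Q1 hold?

`Fails F d` (file `Pool/Agent/IRR46/Defs.lean`) says that some irreducible `f ∈ F[X,Y]` of total
degree `d` has no irreducible substitution `f(aY + b, Y)`, `a, b ∈ F`, i.e. `N(f) = 0`.
-/

set_option autoImplicit false

namespace Pool.Agent.Results.MP_46a474_nt.DegreeDichotomy

open Pool.Agent.IRR46

/-- For every total degree `d`:
(1) if `d ≤ 3` then Q1 is true in degree `d`;
(2) if `d ≥ 4` then it fails over arbitrarily large finite fields;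
(3) it fails over a given finite field `F` of characteristic `p` in each of the following cases:
  (i) `p` odd, `d > p` odd, `(-1)^((d-1)/2) d` is zero or a nonsquare in `F`;
  (ii) `p` odd, `d > p` divisible by `p`, and `4 ∣ d` or `-1` is a square in `F`;
  (iii) `d = p^k`, `k ≥ 2`, `d ≠ 4`;
  (iv) `p = 2`, `d = 4` and the number of elements of `F` is `1` modulo `3`. -/
theorem result (d : ℕ) :
    (d ≤ 3 → ∀ (F : Type) [Field F] [Fintype F], d ^ 4 < Fintype.card F → ¬ Fails F d) ∧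
    (4 ≤ d → ∀ B : ℕ, ∃ (F : Type) (_ : Field F) (_ : Fintype F),
      B < Fintype.card F ∧ Fails F d) ∧
    (∀ (F : Type) [Field F] [Fintype F] (p : ℕ) [CharP F p],
      ((p ≠ 2 ∧ p < d ∧ Odd d ∧ ((d : F) = 0 ∨ ¬ IsSquare ((-1 : F) ^ (d / 2) * (d : F)))) ∨
        (p ≠ 2 ∧ p < d ∧ p ∣ d ∧ (4 ∣ d ∨ IsSquare (-1 : F))) ∨
        (∃ k : ℕ, 2 ≤ k ∧ d = p ^ k ∧ d ≠ 4) ∨
        (p = 2 ∧ d = 4 ∧ Fintype.card F % 3 = 1)) → Fails F d) := by
  refine ⟨fun h F _ _ hF => not_fails d h hF, fails_unbounded d, ?_⟩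
  intro F _ _ p _ h
  have hp : p.Prime := CharP.char_is_prime F p
  have : Fact p.Prime := ⟨hp⟩
  rcases h with ⟨hp2, hlt, hodd, h⟩ | ⟨hp2, hlt, hpd, h⟩ | ⟨k, hk, rfl, h4⟩ | ⟨rfl, rfl, h⟩
  · rcases h with h | h
    · exact fails_mult p hp2 d ((CharP.cast_eq_zero_iff F p d).1 h) hlt (Or.inl hodd)
    · obtain ⟨k, rfl⟩ := hodd
      have h2 := hp.two_le
      have e : (2 * k + 1) / 2 = k := by omega
      rw [e] at h
      exact fails_prime p hp2 k (by omega) hlt h
  · exact fails_mult p hp2 d hpd hlt (Or.inr h)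
  · exact fails_prime_pow F p k hk h4
  · exact fails_four F h

end Pool.Agent.Results.MP_46a474_nt.DegreeDichotomy
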